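import Mathlib

/-!
# Fields of real numbers with very good rational approximations at most scales

The filter version of `Pool/Agent/R701/LV/Basic.lean`, from which the proofs are taken.
-/

set_option autoImplicit false

namespace Pool.Agent.R295.SL

/-- `x` has, for some `h` and every `κ`, for most `k` rational approximations with denominator
at most `q k ^ h` and error at most `q k ^ (-κ)`. -/
def Apr (F : Filter ℕ) (q : ℕ → ℕ) (x : ℝ) : Prop :=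
  ∃ h : ℕ, ∀ κ : ℕ, ∀ᶠ k in F, ∃ (a : ℤ) (b : ℕ), 0 < b ∧ b ≤ q k ^ h ∧
    |x - a / b| ≤ (((q k : ℕ) : ℝ) ^ κ)⁻¹

theorem le_pow {q : ℕ} (hq : 2 ≤ q) (c : ℕ) : c ≤ q ^ c :=
  (Nat.lt_pow_self (by omega : 1 < q)).le

theorem real_le_pow {q : ℕ} (hq : 2 ≤ q) {C : ℝ} {m : ℕ} (h : C ≤ m) : C ≤ (q : ℝ) ^ m :=
  h.trans (by exact_mod_cast le_pow hq m)

/-- `C q ^ (-(κ + m)) ≤ q ^ (-κ)` if `C ≤ m` -/
theorem absorb {q : ℕ} (hq : 2 ≤ q) {C : ℝ} {m : ℕ} (h : C ≤ m) (κ : ℕ) :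
    C * ((q : ℝ) ^ (κ + m))⁻¹ ≤ ((q : ℝ) ^ κ)⁻¹ := by
  have h0 : (0 : ℝ) < q := by
    have : 0 < q := by omega
    exact_mod_cast this
  have h1 := real_le_pow hq h
  rw [pow_add, mul_inv]
  have h2 : C * ((q : ℝ) ^ m)⁻¹ ≤ 1 := by
    rw [← div_eq_mul_inv, div_le_one (by positivity)]
    exact h1
  calc C * (((q : ℝ) ^ κ)⁻¹ * ((q : ℝ) ^ m)⁻¹) = (C * ((q : ℝ) ^ m)⁻¹) * ((q : ℝ) ^ κ)⁻¹ := by ring
    _ ≤ 1 * ((q : ℝ) ^ κ)⁻¹ := mul_le_mul_of_nonneg_right h2 (by positivity)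
    _ = ((q : ℝ) ^ κ)⁻¹ := one_mul _

variable {F : Filter ℕ} {q : ℕ → ℕ} (hq : ∀ k, 2 ≤ q k)

theorem inv_le_one (hq : ∀ k, 2 ≤ q k) (k κ : ℕ) : (((q k : ℕ) : ℝ) ^ κ)⁻¹ ≤ 1 := by
  have h1 : (1 : ℝ) ≤ ((q k : ℕ) : ℝ) := by
    have := hq k
    have h : 1 ≤ q k := by omega
    exact_mod_cast h
  exact inv_le_one_of_one_le₀ (one_le_pow₀ h1)

/-- a joint version -/
theorem Apr.both {x y : ℝ} (hx : Apr F q x) (hy : Apr F q y) : ∃ h g : ℕ, ∀ κ : ℕ, ∀ᶠ k in F,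
    (∃ (a : ℤ) (b : ℕ), 0 < b ∧ b ≤ q k ^ h ∧ |x - a / b| ≤ (((q k : ℕ) : ℝ) ^ κ)⁻¹) ∧
    (∃ (a : ℤ) (b : ℕ), 0 < b ∧ b ≤ q k ^ g ∧ |y - a / b| ≤ (((q k : ℕ) : ℝ) ^ κ)⁻¹) := by
  obtain ⟨h, hh⟩ := hx
  obtain ⟨g, hg⟩ := hy
  exact ⟨h, g, fun κ => (hh κ).and (hg κ)⟩

include hq

theorem Apr.add {x y : ℝ} (hx : Apr F q x) (hy : Apr F q y) : Apr F q (x + y) := by
  obtain ⟨h, g, H⟩ := hx.both hy
  refine ⟨h + g, fun κ => ?_⟩
  filter_upwards [H (κ + 2)] with k hk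
  obtain ⟨⟨a, b, hb, hbq, hab⟩, c, d, hd, hdq, hcd⟩ := hk
  refine ⟨a * d + c * b, b * d, Nat.mul_pos hb hd, ?_, ?_⟩
  · rw [pow_add]
    exact Nat.mul_le_mul hbq hdq
  · have hb' : (b : ℝ) ≠ 0 := by positivity
    have hd' : (d : ℝ) ≠ 0 := by positivity
    have e : x + y - ((a * d + c * b : ℤ) : ℝ) / ((b * d : ℕ) : ℝ) =
        (x - a / b) + (y - c / d) := by
      push_cast
      field_simp
      ring
    rw [e]
    refine (abs_add_le _ _).trans ?_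
    refine le_trans ?_ (absorb (hq k) (C := 2) (m := 2) (by norm_num) κ)
    linarith

theorem Apr.mul {x y : ℝ} (hx : Apr F q x) (hy : Apr F q y) : Apr F q (x * y) := by
  obtain ⟨h, g, H⟩ := hx.both hy
  obtain ⟨m, hm⟩ := exists_nat_ge (|x| + |y| + 1)
  refine ⟨h + g, fun κ => ?_⟩
  filter_upwards [H (κ + m)] with k hk
  obtain ⟨⟨a, b, hb, hbq, hab⟩, c, d, hd, hdq, hcd⟩ := hk
  refine ⟨a * c, b * d, Nat.mul_pos hb hd, ?_, ?_⟩
  · rw [pow_add]
    exact Nat.mul_le_mul hbq hdq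
  · have hb' : (b : ℝ) ≠ 0 := by positivity
    have hd' : (d : ℝ) ≠ 0 := by positivity
    set ε := (((q k : ℕ) : ℝ) ^ (κ + m))⁻¹ with hε
    have hε1 : ε ≤ 1 := inv_le_one hq k _
    have hε0 : 0 ≤ ε := by positivity
    have e : x * y - ((a * c : ℤ) : ℝ) / ((b * d : ℕ) : ℝ) =
        x * (y - c / d) + (x - a / b) * y - (x - a / b) * (y - c / d) := by
      push_cast
      field_simp
      ring
    rw [e]
    have h1 : |x * (y - c / d)| ≤ |x| * ε := by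
      rw [abs_mul]; exact mul_le_mul_of_nonneg_left hcd (abs_nonneg _)
    have h2 : |(x - a / b) * y| ≤ ε * |y| := by
      rw [abs_mul]; exact mul_le_mul_of_nonneg_right hab (abs_nonneg _)
    have h3 : |(x - a / b) * (y - c / d)| ≤ 1 * ε := by
      rw [abs_mul]; exact mul_le_mul (hab.trans hε1) hcd (abs_nonneg _) zero_le_one
    calc |x * (y - c / d) + (x - a / b) * y - (x - a / b) * (y - c / d)|
        ≤ |x * (y - c / d)| + |(x - a / b) * y| + |(x - a / b) * (y - c / d)| := by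
          refine (abs_sub _ _).trans ?_
          have := abs_add_le (x * (y - c / d)) ((x - a / b) * y)
          linarith
      _ ≤ (|x| + |y| + 1) * ε := by nlinarith
      _ ≤ _ := absorb (hq k) hm κ

theorem Apr.inv {x : ℝ} (hx : Apr F q x) : Apr F q x⁻¹ := by
  by_cases h0 : x = 0
  · rw [h0, inv_zero, ← h0]; exact hx
  have hx0 : 0 < |x| := abs_pos.2 h0
  obtain ⟨h, hh⟩ := hx
  obtain ⟨m, hm⟩ := exists_nat_ge (2 / x ^ 2)
  obtain ⟨n, hn⟩ := exists_nat_ge (2 / |x|)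
  obtain ⟨r, hr⟩ := exists_nat_ge (|x| + 1)
  refine ⟨h + r, fun κ => ?_⟩
  filter_upwards [hh (κ + m + n)] with k hk
  obtain ⟨a, b, hb, hbq, hab⟩ := hk
  have hb' : (0 : ℝ) < b := by exact_mod_cast hb
  have hq0 : (0 : ℝ) < ((q k : ℕ) : ℝ) := by
    have := hq k
    have h : 0 < q k := by omega
    exact_mod_cast h
  have hε1 := inv_le_one hq k (κ + m + n)
  -- the error is at most `|x| / 2`
  have hhalf : |x - a / b| ≤ |x| / 2 := by
    refine hab.trans ?_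
    have h1 := absorb (hq k) hn (κ + m)
    have h2 := inv_le_one hq k (κ + m)
    have h3 : 2 / |x| * (((q k : ℕ) : ℝ) ^ (κ + m + n))⁻¹ ≤ 1 := h1.trans h2
    rw [div_mul_eq_mul_div, div_le_one hx0] at h3
    linarith
  have hlow : |x| / 2 ≤ |(a : ℝ) / b| := by
    have h1 : |x| ≤ |x - a / b| + |(a : ℝ) / b| := by
      calc |x| = |(x - a / b) + a / b| := by ring_nf
        _ ≤ _ := abs_add_le _ _
    linarith
  have ha0 : (a : ℝ) ≠ 0 := by
    intro h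
    rw [h, zero_div, abs_zero] at hlow
    linarith
  have haz : a ≠ 0 := by exact_mod_cast ha0
  refine ⟨a.sign * b, a.natAbs, Int.natAbs_pos.2 haz, ?_, ?_⟩
  · have h1 : |(a : ℝ)| ≤ (|x| + 1) * b := by
      have h2 : |(a : ℝ) / b| ≤ |x| + 1 := by
        calc |(a : ℝ) / b| = |x - (x - a / b)| := by ring_nf
          _ ≤ |x| + |x - a / b| := abs_sub _ _
          _ ≤ |x| + 1 := by linarith
      rw [abs_div, div_le_iff₀ (by positivity), abs_of_pos hb'] at h2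
      exact h2
    have h3 : ((a.natAbs : ℕ) : ℝ) ≤ ((q k ^ (h + r) : ℕ) : ℝ) := by
      have e : ((a.natAbs : ℕ) : ℝ) = |(a : ℝ)| := by
        rw [Nat.cast_natAbs, Int.cast_abs]
      rw [e]
      calc |(a : ℝ)| ≤ (|x| + 1) * b := h1
        _ ≤ ((q k : ℕ) : ℝ) ^ r * ((q k : ℕ) : ℝ) ^ h := by
          apply mul_le_mul (real_le_pow (hq k) hr) (by exact_mod_cast hbq) hb'.le (by positivity)
        _ = ((q k ^ (h + r) : ℕ) : ℝ) := by push_cast; ring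
    exact_mod_cast h3
  · have e1 : ((a.sign * b : ℤ) : ℝ) / ((a.natAbs : ℕ) : ℝ) = b / a := by
      have h1 : ((a.natAbs : ℕ) : ℝ) = |(a : ℝ)| := by
        rw [Nat.cast_natAbs, Int.cast_abs]
      rw [h1]
      rcases lt_or_gt_of_ne haz with h2 | h2
      · rw [Int.sign_eq_neg_one_of_neg h2, abs_of_neg (by exact_mod_cast h2)]
        push_cast
        rw [neg_one_mul, neg_div_neg_eq]
      · rw [Int.sign_eq_one_of_pos h2, abs_of_pos (by exact_mod_cast h2)]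
        push_cast
        rw [one_mul]
    rw [e1]
    have e2 : x⁻¹ - b / a = (a / b - x) / (x * (a / b)) := by
      field_simp
    rw [e2, abs_div, abs_mul, abs_sub_comm]
    have h4 : |x| * (|x| / 2) ≤ |x| * |(a : ℝ) / b| := mul_le_mul_of_nonneg_left hlow hx0.le
    have h5 : |x - a / b| / (|x| * |(a : ℝ) / b|) ≤
        (((q k : ℕ) : ℝ) ^ (κ + m + n))⁻¹ / (|x| * (|x| / 2)) :=
      div_le_div₀ (by positivity) hab (by positivity) h4
    refine h5.trans ?_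
    have e3 : (((q k : ℕ) : ℝ) ^ (κ + m + n))⁻¹ / (|x| * (|x| / 2)) =
        (2 / x ^ 2 * (((q k : ℕ) : ℝ) ^ (κ + m))⁻¹) * (((q k : ℕ) : ℝ) ^ n)⁻¹ := by
      rw [pow_add _ (κ + m) n, mul_inv, ← sq_abs x]
      field_simp
    rw [e3]
    have h6 := absorb (hq k) hm κ
    have h7 := inv_le_one hq k n
    calc (2 / x ^ 2 * (((q k : ℕ) : ℝ) ^ (κ + m))⁻¹) * (((q k : ℕ) : ℝ) ^ n)⁻¹ ≤
        (2 / x ^ 2 * (((q k : ℕ) : ℝ) ^ (κ + m))⁻¹) * 1 := by
          apply mul_le_mul_of_nonneg_left h7 (by positivity)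
      _ ≤ _ := by rw [mul_one]; exact h6

theorem Apr.rat (r : ℚ) : Apr F q (r : ℝ) := by
  refine ⟨r.den, fun κ => Filter.Eventually.of_forall fun k =>
    ⟨r.num, r.den, r.den_pos, le_pow (hq k) _, ?_⟩⟩
  have e : (r : ℝ) - (r.num : ℝ) / (r.den : ℝ) = 0 := by
    rw [sub_eq_zero]
    exact Rat.cast_def r
  rw [e, abs_zero]
  positivity

/-- the field of the approximable numbers -/
noncomputable def LL (F : Filter ℕ) {q : ℕ → ℕ} (hq : ∀ k, 2 ≤ q k) : IntermediateField ℚ ℝ where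
  carrier := {x | Apr F q x}
  mul_mem' := fun hx hy => Apr.mul hq hx hy
  one_mem' := by simpa using Apr.rat hq 1
  add_mem' := fun hx hy => Apr.add hq hx hy
  zero_mem' := by simpa using Apr.rat hq 0
  algebraMap_mem' := fun r => by simpa using Apr.rat hq r
  inv_mem' := fun _ hx => Apr.inv hq hx

omit hq in
/-- `x` is approximated with common denominators -/
theorem common {ι : Type*} [Fintype ι] (q : ℕ) (h κ : ℕ) (x : ι → ℝ)
    (hx : ∀ i, ∃ (a : ℤ) (b : ℕ), 0 < b ∧ b ≤ q ^ h ∧ |x i - a / b| ≤ ((q : ℝ) ^ κ)⁻¹) :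
    ∃ (a : ι → ℤ) (b : ℕ), 0 < b ∧ b ≤ q ^ (h * Fintype.card ι) ∧
      ∀ i, |x i - a i / b| ≤ ((q : ℝ) ^ κ)⁻¹ := by
  classical
  choose a b hb hbq hab using hx
  refine ⟨fun i => a i * ∏ j ∈ Finset.univ.erase i, (b j : ℤ), ∏ i, b i,
    Finset.prod_pos fun i _ => hb i, ?_, fun i => ?_⟩
  · calc ∏ i, b i ≤ ∏ _i : ι, q ^ h := Finset.prod_le_prod' fun i _ => hbq i
      _ = q ^ (h * Fintype.card ι) := by
        rw [Finset.prod_const, Finset.card_univ, ← pow_mul]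
  · have e : ((a i * ∏ j ∈ Finset.univ.erase i, (b j : ℤ) : ℤ) : ℝ) / ((∏ i, b i : ℕ) : ℝ) =
        a i / b i := by
      rw [← Finset.mul_prod_erase Finset.univ b (Finset.mem_univ i)]
      push_cast
      have h1 : (∏ j ∈ Finset.univ.erase i, (b j : ℝ)) ≠ 0 :=
        Finset.prod_ne_zero_iff.2 fun j _ => by
          have := hb j
          positivity
      have h2 : (b i : ℝ) ≠ 0 := by
        have := hb i
        positivity
      field_simp
    rw [e]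
    exact hab i

omit hq in
/-- simultaneous measures: at every large scale one of the numbers has no good approximation -/
theorem not_all {ι : Type*} [Fintype ι] (x : ι → ℝ) (c : ℝ) (hc : 0 < c) (M : ℕ)
    (hm : ∀ (a : ι → ℤ) (b : ℕ), 0 < b → ∃ i, c / (b : ℝ) ^ M ≤ |x i - a i / b|) (h : ℕ) :
    ∃ κ : ℕ, ∀ q : ℕ, 2 ≤ q → ∃ i, ¬ ∃ (a : ℤ) (b : ℕ), 0 < b ∧ b ≤ q ^ h ∧
      |x i - a / b| ≤ ((q : ℝ) ^ κ)⁻¹ := by
  obtain ⟨m, hm'⟩ := exists_nat_gt (1 / c)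
  refine ⟨h * Fintype.card ι * M + m, fun q hq => ?_⟩
  by_contra hcon
  push Not at hcon
  obtain ⟨a, b, hb, hbq, hab⟩ := common q h _ x hcon
  obtain ⟨i, hi⟩ := hm a b hb
  have h1 := hi.trans (hab i)
  have hb' : (0 : ℝ) < b := by exact_mod_cast hb
  have hq0 : (0 : ℝ) < (q : ℝ) := by
    have h : 0 < q := by omega
    exact_mod_cast h
  rw [div_le_iff₀ (by positivity)] at h1
  have h2 : (b : ℝ) ^ M ≤ (q : ℝ) ^ (h * Fintype.card ι * M) := by
    rw [pow_mul]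
    exact pow_le_pow_left₀ hb'.le (by exact_mod_cast hbq) M
  have h3 : 1 / c < (q : ℝ) ^ m := by
    refine lt_of_lt_of_le hm' ?_
    exact_mod_cast le_pow hq m
  rw [div_lt_iff₀ hc] at h3
  have h4 : ((q : ℝ) ^ (h * Fintype.card ι * M + m))⁻¹ * (b : ℝ) ^ M ≤ ((q : ℝ) ^ m)⁻¹ := by
    rw [pow_add, mul_inv]
    calc ((q : ℝ) ^ (h * Fintype.card ι * M))⁻¹ * ((q : ℝ) ^ m)⁻¹ * (b : ℝ) ^ M
        ≤ ((q : ℝ) ^ (h * Fintype.card ι * M))⁻¹ * ((q : ℝ) ^ m)⁻¹ *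
          (q : ℝ) ^ (h * Fintype.card ι * M) := by
          apply mul_le_mul_of_nonneg_left h2 (by positivity)
      _ = ((q : ℝ) ^ m)⁻¹ := by
          field_simp
  have h5 : c ≤ ((q : ℝ) ^ m)⁻¹ := h1.trans h4
  have h6 : c * (q : ℝ) ^ m ≤ 1 := by
    calc c * (q : ℝ) ^ m ≤ ((q : ℝ) ^ m)⁻¹ * (q : ℝ) ^ m := by
          apply mul_le_mul_of_nonneg_right h5 (by positivity)
      _ = 1 := by field_simp
  linarith

end Pool.Agent.R295.SL
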