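import Pool.Agent.R295.SL.Basic

/-!
# Density zero, and strongly lacunary numbers
-/

set_option autoImplicit false

namespace Pool.Agent.R295.SL

open Finset

/-- the number of elements of `B` below `N` -/
noncomputable def cnt (B : Set ℕ) (N : ℕ) : ℕ := by
  classical exact ((range N).filter (fun k => k ∈ B)).card

theorem cnt_le {A B : Set ℕ} (h : ∀ k ∈ A, k ∈ B) (N : ℕ) : cnt A N ≤ cnt B N := by
  classical
  unfold cnt
  apply card_le_card
  intro k hk
  rw [mem_filter] at hk ⊢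
  exact ⟨hk.1, h k hk.2⟩

theorem cnt_union {A B C : Set ℕ} (h : ∀ k ∈ C, k ∈ A ∨ k ∈ B) (N : ℕ) :
    cnt C N ≤ cnt A N + cnt B N := by
  classical
  unfold cnt
  refine le_trans (card_le_card ?_) (card_union_le _ _)
  intro k hk
  rw [mem_filter] at hk
  rw [mem_union, mem_filter, mem_filter]
  rcases h k hk.2 with h1 | h1
  · exact Or.inl ⟨hk.1, h1⟩
  · exact Or.inr ⟨hk.1, h1⟩

/-- density zero: for every `m` the number of elements below `N` is at most `(N + C) / m`, for some
`C = C(m)` and all `N`. -/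
def ZeroDensity (B : Set ℕ) : Prop := ∀ m : ℕ, ∃ C : ℕ, ∀ N : ℕ, m * cnt B N ≤ N + C

/-- the filter of the sets of density one -/
def dens : Filter ℕ where
  sets := {A | ZeroDensity Aᶜ}
  univ_sets := by
    intro m
    refine ⟨0, fun N => ?_⟩
    have : cnt (Set.univᶜ) N = 0 := by
      classical
      unfold cnt
      simp
    rw [this]; simp
  sets_of_superset := by
    intro A B hA hAB m
    obtain ⟨C, hC⟩ := hA m
    refine ⟨C, fun N => le_trans (Nat.mul_le_mul_left _ (cnt_le ?_ N)) (hC N)⟩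
    intro k hk h
    exact hk (hAB h)
  inter_sets := by
    intro A B hA hB m
    obtain ⟨C, hC⟩ := hA (2 * m)
    obtain ⟨D, hD⟩ := hB (2 * m)
    refine ⟨C + D, fun N => ?_⟩
    have h1 := cnt_union (A := Aᶜ) (B := Bᶜ) (C := (A ∩ B)ᶜ) (by
      intro k hk
      by_contra hcon
      push Not at hcon
      apply hk
      exact ⟨not_not.1 hcon.1, not_not.1 hcon.2⟩) N
    have h2 := hC N
    have h3 := hD N
    have h4 : m * cnt ((A ∩ B)ᶜ) N ≤ m * cnt Aᶜ N + m * cnt Bᶜ N := by
      rw [← mul_add]; exact Nat.mul_le_mul_left _ h1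
    have h5 : 2 * m * cnt Aᶜ N = 2 * (m * cnt Aᶜ N) := by ring
    have h6 : 2 * m * cnt Bᶜ N = 2 * (m * cnt Bᶜ N) := by ring
    omega

theorem eventually_dens {p : ℕ → Prop} : (∀ᶠ k in dens, p k) ↔ ZeroDensity {k | ¬ p k} := Iff.rfl

instance : dens.NeBot := by
  refine ⟨fun h => ?_⟩
  have h1 : (∅ : Set ℕ) ∈ dens := by rw [h]; trivial
  obtain ⟨C, hC⟩ := h1 2
  have h2 : cnt ((∅ : Set ℕ)ᶜ) (C + 1) = C + 1 := by
    classical
    unfold cnt
    simp
  have h3 := hC (C + 1)
  rw [h2] at h3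
  omega

/-- sets covered by bounded windows below the terms of a sequence whose gaps tend to infinity -/
theorem zero_of_windows (l : ℕ → ℕ) (hl : ∀ R : ℕ, ∃ n₀, ∀ n ≥ n₀, l n + R ≤ l (n + 1))
    (B : Set ℕ) (k₀ r : ℕ) (hB : ∀ k ∈ B, k < k₀ ∨ ∃ n, k ≤ l n ∧ l n < k + r) :
    ZeroDensity B := by
  classical
  intro m
  rcases Nat.eq_zero_or_pos (m * r) with h0 | hpos
  · rcases Nat.mul_eq_zero.1 h0 with hm | hr
    · exact ⟨0, fun N => by rw [hm]; simp⟩
    · refine ⟨m * k₀, fun N => ?_⟩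
      have h1 : cnt B N ≤ k₀ := by
        unfold cnt
        refine le_trans (card_le_card (t := range k₀) ?_) (by simp)
        intro k hk
        rw [mem_filter] at hk
        rcases hB k hk.2 with h1 | ⟨n, h1, h2⟩
        · exact mem_range.2 h1
        · omega
      exact (Nat.mul_le_mul_left _ h1).trans (Nat.le_add_left _ _)
  obtain ⟨n₀, hn₀⟩ := hl (m * r)
  have hgrow : ∀ i, l n₀ + m * r * i ≤ l (n₀ + i) := by
    intro i
    induction i with
    | zero => simp
    | succ i ih =>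
      have h1 := hn₀ (n₀ + i) (Nat.le_add_right _ _)
      have h2 : m * r * (i + 1) = m * r * i + m * r := by ring
      have h3 : n₀ + (i + 1) = n₀ + i + 1 := by ring
      rw [h2, h3]
      omega
  refine ⟨m * k₀ + m * r * n₀ + m * r + r, fun N => ?_⟩
  obtain ⟨Q, hQ⟩ : ∃ Q, Q = (N + r) / (m * r) := ⟨_, rfl⟩
  obtain ⟨T, hT⟩ : ∃ T, T = n₀ + Q + 1 := ⟨_, rfl⟩
  have hcard : cnt B N ≤ k₀ + r * T := by
    unfold cnt
    refine le_trans (card_le_card (t := range k₀ ∪ (range T).biUnion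
      (fun n => Ico (l n + 1 - r) (l n + 1))) ?_) ?_
    · intro k hk
      rw [mem_filter, mem_range] at hk
      rw [mem_union]
      rcases hB k hk.2 with h1 | ⟨n, h1, h2⟩
      · exact Or.inl (mem_range.2 h1)
      · right
        rw [mem_biUnion]
        refine ⟨n, ?_, ?_⟩
        · rw [mem_range]
          by_contra hcon
          push Not at hcon
          obtain ⟨i, hi⟩ : ∃ i, n = n₀ + i := ⟨n - n₀, by omega⟩
          have h3 := hgrow i
          rw [← hi] at h3
          have h4 : Q + 1 ≤ i := by omega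
          have h5 : N + r < m * r * (Q + 1) := by
            have := Nat.lt_mul_div_succ (N + r) hpos
            rw [hQ]
            simpa using this
          have h6 : m * r * (Q + 1) ≤ m * r * i := Nat.mul_le_mul_left _ h4
          omega
        · rw [mem_Ico]; omega
    · refine le_trans (card_union_le _ _) ?_
      rw [card_range]
      apply Nat.add_le_add_left
      refine le_trans card_biUnion_le ?_
      refine le_trans (sum_le_card_nsmul (range T) _ r ?_) ?_
      · intro n _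
        rw [Nat.card_Ico]; omega
      · rw [card_range, smul_eq_mul, mul_comm]
  have h1 : m * cnt B N ≤ m * k₀ + m * r * T := by
    calc m * cnt B N ≤ m * (k₀ + r * T) := Nat.mul_le_mul_left _ hcard
      _ = m * k₀ + m * r * T := by ring
  have h2 : m * r * Q ≤ N + r := by rw [hQ]; exact Nat.mul_div_le _ _
  have h3 : m * r * T = m * r * n₀ + m * r * Q + m * r := by
    rw [hT]; ring
  rw [h3] at h1
  omega

/-- `x` is strongly lacunary: for some integers `p n`, `d n ≥ 2` and a constant `C` the error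
`|x - p n / d n|` is at most `C / d (n + 1)` for all `n`, where `log d (n + 1) / log d n` tends to
infinity (for every `M`, `d (n + 1) ≥ (d n) ^ M` for all large `n`). -/
def StronglyLacunary (x : ℝ) : Prop :=
  ∃ (p : ℕ → ℤ) (d : ℕ → ℕ) (C : ℝ), (∀ n, 2 ≤ d n) ∧
    (∀ M : ℕ, ∃ n₀ : ℕ, ∀ n ≥ n₀, d n ^ M ≤ d (n + 1)) ∧
    ∀ n, |x - (p n : ℝ) / d n| ≤ C / d (n + 1)

/-- the scales `2 ^ (2 ^ k)` -/
def sc (k : ℕ) : ℕ := 2 ^ 2 ^ k

theorem two_le_sc (k : ℕ) : 2 ≤ sc k := by
  unfold sc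
  calc 2 = 2 ^ 1 := by norm_num
    _ ≤ 2 ^ 2 ^ k := Nat.pow_le_pow_right (by norm_num) Nat.one_le_two_pow

theorem StronglyLacunary.apr {x : ℝ} (hx : StronglyLacunary x) : Apr dens sc x := by
  obtain ⟨p, d, C, hd2, hd, hC⟩ := hx
  refine ⟨1, fun κ => ?_⟩
  rw [eventually_dens]
  obtain ⟨c, hc⟩ := exists_nat_ge C
  -- `κ + c ≤ 2 ^ r`
  set r : ℕ := κ + c with hr
  have hr2 : κ + c ≤ 2 ^ r := (Nat.lt_two_pow_self).le
  set l : ℕ → ℕ := fun n => Nat.log 2 (Nat.log 2 (d n)) with hl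
  have hlog1 : ∀ n, 1 ≤ Nat.log 2 (d n) := fun n => Nat.log_pos (by norm_num) (hd2 n)
  have hgap : ∀ R : ℕ, ∃ n₀, ∀ n ≥ n₀, l n + R ≤ l (n + 1) := by
    intro R
    obtain ⟨n₀, hn₀⟩ := hd (2 ^ R)
    refine ⟨n₀, fun n hn => ?_⟩
    have h1 := hn₀ n hn
    have h2 : 2 ^ (Nat.log 2 (d n) * 2 ^ R) ≤ d (n + 1) := by
      refine le_trans ?_ h1
      rw [pow_mul]
      exact Nat.pow_le_pow_left (Nat.pow_log_le_self 2 (by have := hd2 n; omega)) _
    have h3 : Nat.log 2 (d n) * 2 ^ R ≤ Nat.log 2 (d (n + 1)) :=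
      Nat.le_log_of_pow_le (by norm_num) h2
    have h4 : 2 ^ (l n + R) ≤ Nat.log 2 (d (n + 1)) := by
      refine le_trans ?_ h3
      rw [pow_add]
      exact Nat.mul_le_mul_right _ (Nat.pow_log_le_self 2 (by have := hlog1 n; omega))
    exact Nat.le_log_of_pow_le (by norm_num) h4
  -- the first index
  obtain ⟨k₀, hk₀⟩ : ∃ k₀ : ℕ, d 0 ≤ sc k₀ := by
    refine ⟨d 0, ?_⟩
    have h1 : d 0 < 2 ^ d 0 := Nat.lt_two_pow_self
    have h2 : 2 ^ d 0 < 2 ^ 2 ^ d 0 := Nat.pow_lt_pow_right (by norm_num) h1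
    unfold sc
    omega
  have hscmono : ∀ {a b : ℕ}, a ≤ b → sc a ≤ sc b := by
    intro a b hab
    unfold sc
    exact Nat.pow_le_pow_right (by norm_num) (Nat.pow_le_pow_right (by norm_num) hab)
  refine zero_of_windows l hgap _ k₀ r ?_
  intro k hk
  by_contra hcon
  push Not at hcon
  obtain ⟨hk1, hk2⟩ := hcon
  apply hk
  -- the last `n` with `d n ≤ sc k` for all earlier indices
  have hex : ∃ n, sc k < d (n + 1) := by
    obtain ⟨n₀, hn₀⟩ := hgap 1
    have h1 : ∀ i, i ≤ l (n₀ + i) := by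
      intro i
      induction i with
      | zero => simp
      | succ i ih =>
        have := hn₀ (n₀ + i) (Nat.le_add_right _ _)
        have h3 : n₀ + (i + 1) = n₀ + i + 1 := by ring
        rw [h3]; omega
    refine ⟨n₀ + k, ?_⟩
    have h2 := h1 (k + 1)
    have h3 : 2 ^ (k + 1) ≤ Nat.log 2 (d (n₀ + (k + 1))) :=
      (Nat.pow_le_pow_right (by norm_num) h2).trans
        (Nat.pow_log_le_self 2 (by have := hlog1 (n₀ + (k + 1)); omega))
    have h4 : 2 ^ 2 ^ (k + 1) ≤ d (n₀ + (k + 1)) :=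
      (Nat.pow_le_pow_right (by norm_num) h3).trans
        (Nat.pow_log_le_self 2 (by have := hd2 (n₀ + (k + 1)); omega))
    have h5 : sc k < 2 ^ 2 ^ (k + 1) := by
      unfold sc
      apply Nat.pow_lt_pow_right (by norm_num)
      exact Nat.pow_lt_pow_right (by norm_num) (by omega)
    have h6 : n₀ + (k + 1) = n₀ + k + 1 := by ring
    rw [h6] at h4
    omega
  classical
  obtain ⟨n, hn, hmin⟩ : ∃ n, sc k < d (n + 1) ∧ ∀ j < n, ¬ sc k < d (j + 1) :=
    ⟨Nat.find hex, Nat.find_spec hex, fun j hj => Nat.find_min hex hj⟩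
  have hdn : d n ≤ sc k := by
    rcases Nat.eq_zero_or_pos n with h0 | h0
    · rw [h0]; exact hk₀.trans (hscmono hk1)
    · have := hmin (n - 1) (by omega)
      have e : n - 1 + 1 = n := by omega
      rw [e] at this
      omega
  -- `k ≤ l (n + 1)`
  have hkl : k ≤ l (n + 1) := by
    apply Nat.le_log_of_pow_le (by norm_num)
    apply Nat.le_log_of_pow_le (by norm_num)
    exact hn.le
  have hkr := hk2 (n + 1) hkl
  have hbig : 2 ^ 2 ^ (k + r) ≤ d (n + 1) := by
    have h1 : 2 ^ (k + r) ≤ Nat.log 2 (d (n + 1)) :=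
      (Nat.pow_le_pow_right (by norm_num) hkr).trans
        (Nat.pow_log_le_self 2 (by have := hlog1 (n + 1); omega))
    exact (Nat.pow_le_pow_right (by norm_num) h1).trans
      (Nat.pow_log_le_self 2 (by have := hd2 (n + 1); omega))
  refine ⟨p n, d n, by have := hd2 n; omega, by rw [pow_one]; exact hdn, ?_⟩
  refine (hC n).trans ?_
  have hsc0 : (0 : ℝ) < (sc k : ℕ) := by
    have := two_le_sc k
    have h : 0 < sc k := by omega
    exact_mod_cast h
  have h1 : (sc k) ^ (κ + c) ≤ d (n + 1) := by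
    refine le_trans ?_ hbig
    unfold sc
    rw [← pow_mul]
    apply Nat.pow_le_pow_right (by norm_num)
    rw [pow_add]
    exact Nat.mul_le_mul_left _ hr2
  have h2 : ((sc k : ℕ) : ℝ) ^ (κ + c) ≤ d (n + 1) := by exact_mod_cast h1
  have h3 := absorb (two_le_sc k) hc κ
  refine le_trans ?_ h3
  have hd0 : (0 : ℝ) < d (n + 1) := lt_of_lt_of_le (by positivity) h2
  rcases le_or_gt C 0 with hC0 | hC0
  · -- then the error is zero
    have h5 : 0 ≤ C / d (n + 1) := (abs_nonneg _).trans (hC n)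
    have h6 : 0 ≤ C := by
      by_contra h7
      push Not at h7
      have := div_neg_of_neg_of_pos h7 hd0
      linarith
    have h7 : C = 0 := le_antisymm hC0 h6
    rw [h7]; simp
  · rw [div_eq_mul_inv]
    apply mul_le_mul_of_nonneg_left _ hC0.le
    exact inv_anti₀ (by positivity) h2

end Pool.Agent.R295.SL
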