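import Pool.Agent.R295.SL.Dens

/-!
# Lacunary series are strongly lacunary numbers, and the main theorem for families with a measure
-/

set_option autoImplicit false

namespace Pool.Agent.R295.SL

open Finset

/-- Let `b ≥ 2`, let the integers `a n` be bounded and `f (n + 1) / f n → ∞`, `f` strictly
increasing. Then `∑ a n / b ^ (f n)` is strongly lacunary. -/
theorem series (b : ℕ) (hb : 2 ≤ b) (a : ℕ → ℤ) (A : ℕ) (ha : ∀ n, |a n| ≤ A) (f : ℕ → ℕ)
    (hf : StrictMono f) (hgap : ∀ M : ℕ, ∃ n₀, ∀ n ≥ n₀, M * f n ≤ f (n + 1)) :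
    StronglyLacunary (∑' n, (a n : ℝ) / (b : ℝ) ^ f n) := by
  have hb0 : (0 : ℝ) < b := by
    have : 0 < b := by omega
    exact_mod_cast this
  have hb2 : (2 : ℝ) ≤ b := by exact_mod_cast hb
  have hadd : ∀ n i, f n + i ≤ f (n + i) := by
    intro n i
    induction i with
    | zero => simp
    | succ i ih =>
      have h1 : f (n + i) < f (n + (i + 1)) := hf (by omega)
      omega
  have hterm : ∀ n i, ‖(a (i + n) : ℝ) / (b : ℝ) ^ f (i + n)‖ ≤
      (A / (b : ℝ) ^ f n) * (1 / 2 : ℝ) ^ i := by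
    intro n i
    rw [norm_div, norm_pow, Real.norm_of_nonneg hb0.le, Real.norm_eq_abs]
    have h1 : |(a (i + n) : ℝ)| ≤ A := by
      have := ha (i + n)
      exact_mod_cast this
    have h2 : (b : ℝ) ^ f n * 2 ^ i ≤ (b : ℝ) ^ f (i + n) := by
      have h3 := hadd n i
      rw [add_comm n i] at h3
      calc (b : ℝ) ^ f n * 2 ^ i ≤ (b : ℝ) ^ f n * b ^ i := by
            apply mul_le_mul_of_nonneg_left _ (by positivity)
            exact pow_le_pow_left₀ (by norm_num) hb2 i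
        _ = (b : ℝ) ^ (f n + i) := (pow_add _ _ _).symm
        _ ≤ (b : ℝ) ^ f (i + n) := pow_le_pow_right₀ (by linarith) h3
    calc |(a (i + n) : ℝ)| / (b : ℝ) ^ f (i + n) ≤ A / ((b : ℝ) ^ f n * 2 ^ i) :=
          div_le_div₀ (by positivity) h1 (by positivity) h2
      _ = (A / (b : ℝ) ^ f n) * (1 / 2 : ℝ) ^ i := by
          rw [div_mul_eq_div_div, one_div, inv_pow, div_eq_mul_inv _ ((2 : ℝ) ^ i)]
  have hsum : Summable (fun n => (a n : ℝ) / (b : ℝ) ^ f n) := by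
    refine Summable.of_norm_bounded (g := fun i => (A / (b : ℝ) ^ f 0) * (1 / 2 : ℝ) ^ i)
      (summable_geometric_two.mul_left _) (fun i => ?_)
    simpa using hterm 0 i
  refine ⟨fun n => ∑ k ∈ range (n + 2), a k * (b : ℤ) ^ (f (n + 1) - f k),
    fun n => b ^ f (n + 1), 2 * A, fun n => ?_, fun M => ?_, fun n => ?_⟩
  · have h1 : 1 ≤ f (n + 1) := by
      have := hadd 0 (n + 1)
      rw [zero_add] at this
      omega
    calc 2 ≤ b := hb
      _ = b ^ 1 := (pow_one _).symm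
      _ ≤ b ^ f (n + 1) := Nat.pow_le_pow_right (by omega) h1
  · obtain ⟨n₀, hn₀⟩ := hgap M
    refine ⟨n₀, fun n hn => ?_⟩
    change (b ^ f (n + 1)) ^ M ≤ b ^ f (n + 1 + 1)
    rw [← pow_mul, mul_comm]
    exact Nat.pow_le_pow_right (by omega) (hn₀ (n + 1) (by omega))
  · change |∑' n, (a n : ℝ) / (b : ℝ) ^ f n -
      ((∑ k ∈ range (n + 2), a k * (b : ℤ) ^ (f (n + 1) - f k) : ℤ) : ℝ) /
        ((b ^ f (n + 1) : ℕ) : ℝ)| ≤ 2 * A / ((b ^ f (n + 1 + 1) : ℕ) : ℝ)
    have e1 : ((∑ k ∈ range (n + 2), a k * (b : ℤ) ^ (f (n + 1) - f k) : ℤ) : ℝ) /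
        ((b ^ f (n + 1) : ℕ) : ℝ) = ∑ k ∈ range (n + 2), (a k : ℝ) / (b : ℝ) ^ f k := by
      push_cast
      rw [sum_div]
      apply sum_congr rfl
      intro k hk
      rw [mem_range] at hk
      have hk' : f k ≤ f (n + 1) := hf.monotone (by omega)
      have h1 : (b : ℝ) ^ f (n + 1) = (b : ℝ) ^ (f (n + 1) - f k) * (b : ℝ) ^ f k := by
        rw [← pow_add]; congr 1; omega
      rw [h1]
      field_simp
    rw [e1, ← hsum.sum_add_tsum_nat_add (n + 2), add_sub_cancel_left]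
    have h2 := tsum_of_norm_bounded (summable_geometric_two.mul_left
      (A / (b : ℝ) ^ f (n + 2))).hasSum (hterm (n + 2))
    rw [tsum_mul_left, tsum_geometric_two, Real.norm_eq_abs] at h2
    push_cast
    calc _ ≤ A / (b : ℝ) ^ f (n + 2) * 2 := h2
      _ = 2 * A / (b : ℝ) ^ f (n + 1 + 1) := by
        rw [show n + 1 + 1 = n + 2 from rfl]; ring

/-- the main theorem for a finite family of numbers with a simultaneous measure -/
theorem family {ι : Type*} [Fintype ι] (x : ι → ℝ) (c : ℝ) (hc : 0 < c) (M : ℕ)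
    (hm : ∀ (a : ι → ℤ) (b : ℕ), 0 < b → ∃ i, c / (b : ℝ) ^ M ≤ |x i - a i / b|) :
    (∃ i, x i ∉ LL dens two_le_sc) ∧
    (∃ i, x i ∉ IntermediateField.adjoin ℚ {y : ℝ | StronglyLacunary y}) := by
  have h1 : ∃ i, x i ∉ LL dens two_le_sc := by
    by_contra hcon
    push Not at hcon
    have hcon' : ∀ i, Apr dens sc (x i) := hcon
    choose h hh using hcon'
    -- a common exponent
    obtain ⟨κ, hκ⟩ := not_all x c hc M hm (∑ i, h i)
    have h2 : ∀ᶠ k in dens, ∀ i, ∃ (a : ℤ) (b : ℕ), 0 < b ∧ b ≤ sc k ^ (∑ i, h i) ∧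
        |x i - a / b| ≤ (((sc k : ℕ) : ℝ) ^ κ)⁻¹ := by
      rw [Filter.eventually_all]
      intro i
      filter_upwards [hh i κ] with k hk
      obtain ⟨a, b, hb, hbq, hab⟩ := hk
      refine ⟨a, b, hb, hbq.trans ?_, hab⟩
      apply Nat.pow_le_pow_right (by have := two_le_sc k; omega)
      exact single_le_sum (f := h) (fun _ _ => Nat.zero_le _) (mem_univ i)
    obtain ⟨k, hk⟩ := h2.exists
    obtain ⟨i, hi⟩ := hκ (sc k) (two_le_sc k)
    exact hi (hk i)
  refine ⟨h1, ?_⟩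
  obtain ⟨i, hi⟩ := h1
  refine ⟨i, fun h => hi ?_⟩
  have h2 : IntermediateField.adjoin ℚ {y : ℝ | StronglyLacunary y} ≤ LL dens two_le_sc := by
    rw [IntermediateField.adjoin_le_iff]
    intro y hy
    exact StronglyLacunary.apr hy
  exact h2 h

end Pool.Agent.R295.SL
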